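import Pool.Agent.H2.HM.Dis
import Pool.Agent.H2.HM.S12

set_option autoImplicit false

/-!
The homeomorphism relation of the closed subsets of a Polish space `W` is analytic if and only if
`W` is sigma-compact.
-/

namespace Pool.Agent.Results.MP_a9bf58_lc.SigmaCompactDichotomy

open Set Topology TopologicalSpace MeasureTheory

/-- The Effros Borel structure on the space `F(W)` of the closed subsets of `W`. -/
@[reducible] def Effros (W : Type) [TopologicalSpace W] : MeasurableSpace (Closeds W) :=
  MeasurableSpace.generateFrom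
    {A | ∃ V : Set W, IsOpen V ∧ A = {F : Closeds W | ((F : Set W) ∩ V).Nonempty}}

/-- Analytic sets: the projections of the Borel subsets of `X × (ℕ → ℕ)`. -/
def Analytic {X : Type} (m : MeasurableSpace X) (A : Set X) : Prop :=
  ∃ B : Set (X × (ℕ → ℕ)), MeasurableSet[m.prod inferInstance] B ∧ A = {x | ∃ z, (x, z) ∈ B}

/-- The homeomorphism relation on `F(W)`. -/
def HomeoRel (W : Type) [TopologicalSpace W] : Set (Closeds W × Closeds W) :=
  {p | Nonempty (p.1 ≃ₜ p.2)}

/-- `Σ¹₂` sets: the projections of the coanalytic subsets of `X × (ℕ → ℕ)`. -/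
def Sigma12 {X : Type} (m : MeasurableSpace X) (A : Set X) : Prop :=
  ∃ C : Set (X × (ℕ → ℕ)), Analytic (m.prod inferInstance) Cᶜ ∧ A = {x | ∃ z, (x, z) ∈ C}

/-- `A` is a complete `Σ¹₂` set: it is `Σ¹₂`, and each `Σ¹₂` subset of the Baire space is the preimage
of `A` by a Borel map. -/
def Sigma12Complete {X : Type} (m : MeasurableSpace X) (A : Set X) : Prop :=
  Sigma12 m A ∧ ∀ D : Set (ℕ → ℕ), Sigma12 inferInstance D →
    ∃ f : (ℕ → ℕ) → X, Measurable[inferInstance, m] f ∧ ∀ x, x ∈ D ↔ f x ∈ A

/-- The homeomorphism relation on `F(W)` is Borel reducible to an analytic equivalence relation on a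
standard Borel space. -/
def ReducibleToAnalytic (W : Type) [TopologicalSpace W] : Prop :=
  ∃ (Y : Type) (m : MeasurableSpace Y) (_ : StandardBorelSpace Y) (E : Y → Y → Prop),
    Equivalence E ∧ Analytic (m.prod m) {p : Y × Y | E p.1 p.2} ∧
      ∃ f : Closeds W → Y, Measurable[Effros W, m] f ∧
        ∀ A B : Closeds W, Nonempty (A ≃ₜ B) ↔ E (f A) (f B)

/-- `C` is a complete coanalytic set: its complement is analytic, and each coanalytic subset of the
Baire space is the preimage of `C` by a Borel map. -/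
def CoanalyticComplete {X : Type} (m : MeasurableSpace X) (C : Set X) : Prop :=
  Analytic m Cᶜ ∧ ∀ D : Set (ℕ → ℕ), AnalyticSet Dᶜ →
    ∃ f : (ℕ → ℕ) → X, Measurable[inferInstance, m] f ∧ ∀ x, x ∈ D ↔ f x ∈ C

/-- Urysohn's universal metric space: complete, separable, it contains an isometric copy of each
separable metric space, and each isometry between finite subsets extends to an isometry of the
space. -/
structure IsUrysohn (U : Type) [MetricSpace U] : Prop where
  complete : CompleteSpace U
  separable : SeparableSpace U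
  universal : ∀ (Y : Type) [MetricSpace Y] [SeparableSpace Y], ∃ f : Y → U, Isometry f
  homogeneous : ∀ (F : Set U) (g : F → U), F.Finite → Isometry g → ∃ φ : U ≃ᵢ U, ∀ x : F, φ x = g x

/-- **Theorem.** (1) For every Polish space `W` the following are equivalent: `W` is sigma-compact;
the homeomorphism relation on `F(W)` is analytic; it is Borel reducible to an analytic equivalence
relation; each homeomorphism class is analytic; the class of the infinite discrete sets is
analytic; this class is Borel. (2) If `W` is not sigma-compact, then this class is a nonempty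
complete coanalytic set. (3) If `W` contains a closed copy of `ℝ^ℕ`, then the homeomorphism relation
on `F(W)` is a complete `Σ¹₂` set. (4) For the Urysohn space `U` the homeomorphism relation on
`F(U)`, that is the homeomorphism relation of Polish spaces, is a complete `Σ¹₂` set, not analytic,
and not Borel reducible to any analytic equivalence relation. (The completeness in (3) and (4) is a
theorem of the library.) -/
theorem result :
    (∀ (W : Type) [TopologicalSpace W] [PolishSpace W], List.TFAE
      [SigmaCompactSpace W,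
        Analytic ((Effros W).prod (Effros W)) (HomeoRel W),
        ReducibleToAnalytic W,
        ∀ A : Closeds W, Analytic (Effros W) {B : Closeds W | Nonempty (A ≃ₜ B)},
        Analytic (Effros W) {B : Closeds W | Nonempty (B ≃ₜ ℕ)},
        MeasurableSet[Effros W] {B : Closeds W | Nonempty (B ≃ₜ ℕ)}]) ∧
    (∀ (W : Type) [TopologicalSpace W] [PolishSpace W], ¬ SigmaCompactSpace W →
      ∃ N : Closeds W, Nonempty (N ≃ₜ ℕ) ∧
        CoanalyticComplete (Effros W) {B : Closeds W | Nonempty (B ≃ₜ N)}) ∧
    (∀ (W : Type) [TopologicalSpace W] [PolishSpace W], (∃ e : (ℕ → ℝ) → W, IsClosedEmbedding e) →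
      Sigma12Complete ((Effros W).prod (Effros W)) (HomeoRel W)) ∧
    (∀ (U : Type) [MetricSpace U], IsUrysohn U →
      Sigma12Complete ((Effros U).prod (Effros U)) (HomeoRel U) ∧
      ¬ Analytic ((Effros U).prod (Effros U)) (HomeoRel U) ∧ ¬ ReducibleToAnalytic U) := by
  have main : ∀ (W : Type) [TopologicalSpace W] [PolishSpace W], List.TFAE
      [SigmaCompactSpace W,
        Analytic ((Effros W).prod (Effros W)) (HomeoRel W),
        ReducibleToAnalytic W,
        ∀ A : Closeds W, Analytic (Effros W) {B : Closeds W | Nonempty (A ≃ₜ B)},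
        Analytic (Effros W) {B : Closeds W | Nonempty (B ≃ₜ ℕ)},
        MeasurableSet[Effros W] {B : Closeds W | Nonempty (B ≃ₜ ℕ)}] := by
    intro W _ _
    have h : List.TFAE
      [SigmaCompactSpace W,
        Analytic ((Effros W).prod (Effros W)) (HomeoRel W),
        ReducibleToAnalytic W,
        ∀ A : Closeds W, Analytic (Effros W) {B : Closeds W | Nonempty (A ≃ₜ B)},
        Analytic (Effros W) {B : Closeds W | Nonempty (B ≃ₜ ℕ)}] := Pool.Agent.H2.HM.main W
    tfae_have 1 → 3 := (h.out 0 2).1
    tfae_have 3 → 2 := (h.out 2 1).1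
    tfae_have 2 → 4 := (h.out 1 3).1
    tfae_have 4 → 5 := (h.out 3 4).1
    tfae_have 5 → 1 := (h.out 4 0).1
    tfae_have 1 → 6 := fun _ => Pool.Agent.H2.HM.borel_nat W
    tfae_have 6 → 5 := fun h6 => by
      let := Effros W
      refine ⟨Prod.fst ⁻¹' {B : Closeds W | Nonempty (B ≃ₜ ℕ)}, measurable_fst h6, ?_⟩
      ext B
      exact ⟨fun hB => ⟨fun _ => 0, hB⟩, fun ⟨_, hB⟩ => hB⟩
    tfae_finish
  have conv : ∀ (W : Type) [TopologicalSpace W] [SecondCountableTopology W],
      Pool.Agent.Helper873.Pol.IsSigma12Complete (Pool.Agent.Helper873.Pol.HomeoRel W) →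
        Sigma12Complete ((Effros W).prod (Effros W)) (HomeoRel W) := by
    intro W _ _ h
    refine ⟨Pool.Agent.H2.HM.S12.sigma12 h.1, fun D hD => ?_⟩
    obtain ⟨f, hf, hfD⟩ := h.2 (ℕ → ℕ) D (Pool.Agent.H2.HM.S12.isSigma12_of hD)
    refine ⟨f, hf, fun x => ?_⟩
    rw [hfD]
    rfl
  refine ⟨main, fun W _ _ hW => ?_, fun W _ _ hW => ?_, fun U _ hU => ?_⟩
  · obtain ⟨e, he⟩ := Pool.Agent.H2.HM.exists_baire W hW
    have hN : ∃ N : Closeds W, Nonempty (N ≃ₜ ℕ) := by
      obtain ⟨f, -, hf⟩ := Pool.Agent.H2.HM.hard_nat he (D := univ) (by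
        rw [compl_univ]
        exact analyticSet_empty)
      exact ⟨f fun _ => 0, (hf _).1 (mem_univ _)⟩
    obtain ⟨N, ⟨φ⟩⟩ := hN
    have e1 : {B : Closeds W | Nonempty (B ≃ₜ N)} = {B : Closeds W | Nonempty (B ≃ₜ ℕ)} := by
      ext B
      exact ⟨fun ⟨ψ⟩ => ⟨ψ.trans φ⟩, fun ⟨ψ⟩ => ⟨ψ.trans φ.symm⟩⟩
    refine ⟨N, ⟨φ⟩, ?_, fun D hD => ?_⟩
    · rw [e1]
      exact Pool.Agent.H2.HM.coan_nat W
    · rw [e1]
      exact Pool.Agent.H2.HM.hard_nat he hD
  · exact conv W (Pool.Agent.Results.MP_a9bf58_lc.SigmaComplete.result.2 W hW).1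
  · have := hU.complete
    have := hU.separable
    have : SecondCountableTopology U := UniformSpace.secondCountable_of_separable U
    obtain ⟨e, he⟩ : ∃ e : (ℕ → ℕ) → U, IsClosedEmbedding e := by
      let := PiNat.metricSpaceNatNat
      obtain ⟨e, he⟩ := hU.universal (ℕ → ℕ)
      exact ⟨e, he.isClosedEmbedding⟩
    have hn : ¬ Analytic (Effros U) {B : Closeds U | Nonempty (B ≃ₜ ℕ)} :=
      Pool.Agent.H2.HM.not_an_nat he
    have key := main U
    have hU' : Pool.Agent.Helper873.Pol.IsUrysohn U :=
      ⟨hU.complete, hU.separable, hU.universal,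
        fun s f hf => hU.homogeneous (s : Set U) f s.finite_toSet hf⟩
    exact ⟨conv U (Pool.Agent.Results.MP_a9bf58_lc.SigmaComplete.result.1 U hU').1,
      fun h => hn ((key.out 1 4).1 h), fun h => hn ((key.out 2 4).1 h)⟩

end Pool.Agent.Results.MP_a9bf58_lc.SigmaCompactDichotomy
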